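import Mathlib

/-! Sums `G_g(z) + P_j(x) + P_k(y)` with `z` an arbitrary integer and `x, y ≥ 0`:
tools for showing that a pair `(j,k)` is not universal. -/

namespace Pool.Agent.H56.UniversalPairs

/-- The `m`-gonal number with (integer) argument `x`. -/
def polyNum (m : ℤ) (x : ℤ) : ℤ := ((m - 2) * x ^ 2 - (m - 4) * x) / 2

/-- Every `n ≥ 0` is `P_g(z) + P_j(x) + P_k(y)` with `z ∈ ℤ` and `x, y ≥ 0`. -/
def Universal (g j k : ℕ) : Prop :=
  ∀ n : ℕ, ∃ (z : ℤ) (x y : ℕ), (n : ℤ) = polyNum g z + polyNum j x + polyNum k y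

/-- Natural-number formula for `P_m(x)`, `x ≥ 0`. -/
def pn (m x : ℕ) : ℕ := x + (m - 2) * (x * (x - 1) / 2)

/-- Natural-number formula for `P_m(-w)`, `w ≥ 0`. -/
def qn (m w : ℕ) : ℕ := (m - 2) * (w * (w + 1) / 2) - w

lemma two_tri (x : ℕ) : 2 * (x * (x - 1) / 2) = x * (x - 1) := by
  have h : 2 ∣ x * (x - 1) := (Nat.even_mul_pred_self x).two_dvd
  omega

lemma two_tri' (x : ℕ) : 2 * (x * (x + 1) / 2) = x * (x + 1) := by
  have h : 2 ∣ x * (x + 1) := (Nat.even_mul_succ_self x).two_dvd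
  omega

lemma polyNum_nat (m x : ℕ) (hm : 2 ≤ m) : polyNum m x = (pn m x : ℤ) := by
  obtain ⟨m, rfl⟩ := Nat.exists_eq_add_of_le hm
  unfold polyNum pn
  have h1 := two_tri x
  rcases Nat.eq_zero_or_pos x with rfl | hx
  · simp
  obtain ⟨x, rfl⟩ := Nat.exists_eq_add_of_le hx
  have h2 : (2 : ℤ) * (((1 + x) * (1 + x - 1) / 2 : ℕ) : ℤ) = (1 + x) * x := by
    have : 1 + x - 1 = x := by omega
    rw [this] at h1 ⊢
    exact_mod_cast h1
  have h3 : ((((2 + m : ℕ) : ℤ) - 2) * ((1 + x : ℕ) : ℤ) ^ 2 - (((2 + m : ℕ) : ℤ) - 4) * ((1 + x : ℕ) : ℤ))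
      = 2 * (((1 + x + (2 + m - 2) * ((1 + x) * (1 + x - 1) / 2) : ℕ)) : ℤ) := by
    have h4 : 2 + m - 2 = m := by omega
    rw [h4]
    push_cast
    push_cast at h2
    linear_combination (-(m : ℤ)) * h2
  rw [h3]
  exact Int.mul_ediv_cancel_left _ (by norm_num)

lemma polyNum_neg (m w : ℕ) (hm : 3 ≤ m) : polyNum m (-(w : ℤ)) = (qn m w : ℤ) := by
  obtain ⟨m, rfl⟩ := Nat.exists_eq_add_of_le hm
  unfold polyNum qn
  have h1 := two_tri' w
  set t := w * (w + 1) / 2 with ht
  have hle : w ≤ (3 + m - 2) * t := by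
    have : w ≤ t := by nlinarith [h1]
    calc w ≤ 1 * t := by omega
      _ ≤ (3 + m - 2) * t := Nat.mul_le_mul_right _ (by omega)
  have h3 : ((((3 + m : ℕ) : ℤ) - 2) * (-(w : ℤ)) ^ 2 - (((3 + m : ℕ) : ℤ) - 4) * (-(w : ℤ)))
      = 2 * ((((3 + m - 2) * t - w : ℕ)) : ℤ) := by
    have h2 : (2 : ℤ) * (t : ℤ) = w * (w + 1) := by exact_mod_cast h1
    rw [Nat.cast_sub hle]
    have h4 : 3 + m - 2 = 1 + m := by omega
    rw [h4]
    push_cast
    linear_combination (-(1 + (m : ℤ))) * h2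
  rw [h3]
  exact Int.mul_ediv_cancel_left _ (by norm_num)

lemma exists_nat_of_universal {g j k : ℕ} (hg : 3 ≤ g) (hj : 3 ≤ j) (hk : 3 ≤ k)
    (h : Universal g j k) (n : ℕ) :
    ∃ w x y : ℕ, n = pn g w + pn j x + pn k y ∨ n = qn g w + pn j x + pn k y := by
  obtain ⟨z, x, y, hz⟩ := h n
  rw [polyNum_nat j x (by omega), polyNum_nat k y (by omega)] at hz
  rcases Int.eq_nat_or_neg z with ⟨w, rfl | rfl⟩
  · rw [polyNum_nat g w (by omega)] at hz
    exact ⟨w, x, y, Or.inl (by exact_mod_cast hz)⟩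
  · rw [polyNum_neg g w hg] at hz
    exact ⟨w, x, y, Or.inr (by exact_mod_cast hz)⟩

lemma le_pn (m x : ℕ) (hm : 3 ≤ m) : x * x ≤ 2 * pn m x := by
  unfold pn
  have h1 := two_tri x
  set t := x * (x - 1) / 2
  have h2 : 1 * t ≤ (m - 2) * t := Nat.mul_le_mul_right _ (by omega)
  rcases Nat.eq_zero_or_pos x with rfl | hx
  · simp
  obtain ⟨y, rfl⟩ := Nat.exists_eq_add_of_le hx
  have : 1 + y - 1 = y := by omega
  rw [this] at h1
  nlinarith

lemma le_qn (m w : ℕ) (hm : 5 ≤ m) : w * w ≤ 2 * qn m w := by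
  unfold qn
  have h1 := two_tri' w
  set t := w * (w + 1) / 2
  have h2 : 3 * t ≤ (m - 2) * t := Nat.mul_le_mul_right _ (by omega)
  have h3 : w ≤ t := by nlinarith [h1]
  have h4 : 3 * t - w ≤ (m - 2) * t - w := Nat.sub_le_sub_right h2 _
  have h5 : w * w ≤ 2 * (3 * t - w) := by
    have : 2 * (3 * t - w) = 3 * (2 * t) - 2 * w := by omega
    rw [this, h1]
    have : 3 * (w * (w + 1)) - 2 * w = 3 * (w * w) + w := by
      have : 3 * (w * (w + 1)) = 3 * (w * w) + 3 * w := by ring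
      omega
    rw [this]
    nlinarith
  omega

lemma lt_pn_of_two_le {m x n : ℕ} (hm : 3 ≤ m) (hx : 2 ≤ x) (hn : n < m) : n < pn m x := by
  unfold pn
  obtain ⟨y, rfl⟩ := Nat.exists_eq_add_of_le hx
  have h1 := two_tri (2 + y)
  have e : 2 + y - 1 = 1 + y := by omega
  rw [e] at h1 ⊢
  set t := (2 + y) * (1 + y) / 2
  have h2 : 1 ≤ t := by nlinarith
  have h3 : (m - 2) * 1 ≤ (m - 2) * t := Nat.mul_le_mul_left _ h2
  omega

@[simp] lemma pn_zero (m : ℕ) : pn m 0 = 0 := by simp [pn]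
@[simp] lemma pn_one (m : ℕ) : pn m 1 = 1 := by simp [pn]

/-- `allLT n p` is true iff `p i` holds for all `i < n`. -/
def allLT : ℕ → (ℕ → Bool) → Bool
  | 0, _ => true
  | n + 1, p => p n && allLT n p

lemma allLT_spec {n : ℕ} {p : ℕ → Bool} (h : allLT n p = true) : ∀ i < n, p i = true := by
  induction n with
  | zero => intro i hi; omega
  | succ n ih =>
    simp only [allLT, Bool.and_eq_true] at h
    intro i hi
    rcases Nat.lt_succ_iff_lt_or_eq.mp hi with h' | rfl
    · exact ih h.2 i h'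
    · exact h.1

lemma nbeq_iff (a b : ℕ) : ((!(Nat.beq a b)) = true) ↔ a ≠ b := by
  constructor
  · intro h hab
    subst hab
    simp at h
  · intro h
    cases hb : Nat.beq a b
    · rfl
    · exact absurd (Nat.eq_of_beq_eq_true hb) h

/-- `n` is not `G + P_j(x) + P_k(y)`; valid when `B^2 > 2n`. -/
def chk (g j k n B : ℕ) : Bool :=
  (Nat.ble (2 * n + 1) (B * B)) &&
  allLT B fun y => (Nat.ble (n + 1) (pn k y)) ||
    allLT B fun w =>
      ((Nat.ble (n + 1) (pn k y + pn g w)) ||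
        allLT B fun x => !(Nat.beq (pn k y + pn g w + pn j x) n)) &&
      ((Nat.ble (n + 1) (pn k y + qn g w)) ||
        allLT B fun x => !(Nat.beq (pn k y + qn g w + pn j x) n))

lemma lt_of_sq {a n B : ℕ} (h : a * a ≤ 2 * n) (hB : 2 * n + 1 ≤ B * B) : a < B := by
  by_contra hc
  push Not at hc
  have := Nat.mul_le_mul hc hc
  omega

theorem not_universal_of_chk {g j k n B : ℕ} (hg : 5 ≤ g) (hj : 3 ≤ j) (hk : 3 ≤ k)
    (h : chk g j k n B = true) : ¬ Universal g j k := by
  intro hU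
  obtain ⟨w, x, y, hw⟩ := exists_nat_of_universal (by omega) hj hk hU n
  simp only [chk, Bool.and_eq_true] at h
  obtain ⟨hB, hall⟩ := h
  have hB : 2 * n + 1 ≤ B * B := Nat.le_of_ble_eq_true hB
  have hxn : pn j x ≤ n := by omega
  have hyn : pn k y ≤ n := by omega
  have hxB : x < B := lt_of_sq (le_trans (le_pn j x hj) (by omega)) hB
  have hyB : y < B := lt_of_sq (le_trans (le_pn k y hk) (by omega)) hB
  have h1 := allLT_spec hall y hyB
  simp only [Bool.or_eq_true] at h1
  rcases h1 with h1 | h1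
  · have := Nat.le_of_ble_eq_true h1
    omega
  rcases hw with hw | hw
  · have hwB : w < B := lt_of_sq (le_trans (le_pn g w (by omega)) (by omega)) hB
    have h2 := allLT_spec h1 w hwB
    simp only [Bool.and_eq_true, Bool.or_eq_true] at h2
    rcases h2.1 with h3 | h3
    · have := Nat.le_of_ble_eq_true h3
      omega
    · have h4 := allLT_spec h3 x hxB
      rw [nbeq_iff] at h4
      omega
  · have hwB : w < B := lt_of_sq (le_trans (le_qn g w hg) (by omega)) hB
    have h2 := allLT_spec h1 w hwB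
    simp only [Bool.and_eq_true, Bool.or_eq_true] at h2
    rcases h2.2 with h3 | h3
    · have := Nat.le_of_ble_eq_true h3
      omega
    · have h4 := allLT_spec h3 x hxB
      rw [nbeq_iff] at h4
      omega

/-- Check used for large `k`: neither `n` nor `n - 1` is `G + P_j(x)`. -/
def chkK (g j n B : ℕ) : Bool :=
  (Nat.ble (2 * n + 1) (B * B)) &&
  allLT B fun w => allLT B fun x =>
    !(Nat.beq (pn g w + pn j x) n) && !(Nat.beq (pn g w + pn j x + 1) n) &&
    !(Nat.beq (qn g w + pn j x) n) && !(Nat.beq (qn g w + pn j x + 1) n)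

theorem not_universal_of_chkK {g j k n B : ℕ} (hg : 5 ≤ g) (hj : 3 ≤ j) (hk : 3 ≤ k)
    (hnk : n < k) (h : chkK g j n B = true) : ¬ Universal g j k := by
  intro hU
  obtain ⟨w, x, y, hw⟩ := exists_nat_of_universal (by omega) hj hk hU n
  simp only [chkK, Bool.and_eq_true] at h
  obtain ⟨hB, hall⟩ := h
  have hB : 2 * n + 1 ≤ B * B := Nat.le_of_ble_eq_true hB
  have hxn : pn j x ≤ n := by omega
  have hyn : pn k y ≤ n := by omega
  have hxB : x < B := lt_of_sq (le_trans (le_pn j x hj) (by omega)) hB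
  have hy : y < 2 := by
    by_contra hc
    push Not at hc
    have := lt_pn_of_two_le hk hc hnk
    omega
  have hy' : pn k y = 0 ∨ pn k y = 1 := by
    interval_cases y
    · left; simp
    · right; simp
  have hwB : w < B := by
    rcases hw with hw | hw
    · exact lt_of_sq (le_trans (le_pn g w (by omega)) (by omega)) hB
    · exact lt_of_sq (le_trans (le_qn g w hg) (by omega)) hB
  have h4 := allLT_spec (allLT_spec hall w hwB) x hxB
  simp only [Bool.and_eq_true, nbeq_iff] at h4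
  omega

/-- Check used for large `j`: none of `n, n - 1, n - 2` is a generalized `g`-gonal number. -/
def chkJ (g n B : ℕ) : Bool :=
  (Nat.ble (2 * n + 1) (B * B)) &&
  allLT B fun w =>
    !(Nat.beq (pn g w) n) && !(Nat.beq (pn g w + 1) n) && !(Nat.beq (pn g w + 2) n) &&
    !(Nat.beq (qn g w) n) && !(Nat.beq (qn g w + 1) n) && !(Nat.beq (qn g w + 2) n)

theorem not_universal_of_chkJ {g j k n B : ℕ} (hg : 5 ≤ g) (hj : 3 ≤ j) (hjk : j ≤ k)
    (hnj : n < j) (h : chkJ g n B = true) : ¬ Universal g j k := by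
  intro hU
  obtain ⟨w, x, y, hw⟩ := exists_nat_of_universal (by omega) hj (by omega) hU n
  simp only [chkJ, Bool.and_eq_true] at h
  obtain ⟨hB, hall⟩ := h
  have hB : 2 * n + 1 ≤ B * B := Nat.le_of_ble_eq_true hB
  have hxn : pn j x ≤ n := by omega
  have hyn : pn k y ≤ n := by omega
  have hy : y < 2 := by
    by_contra hc
    push Not at hc
    have := lt_pn_of_two_le (m := k) (by omega) hc (by omega : n < k)
    omega
  have hx : x < 2 := by
    by_contra hc
    push Not at hc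
    have := lt_pn_of_two_le hj hc hnj
    omega
  have hy' : pn k y = 0 ∨ pn k y = 1 := by
    interval_cases y
    · left; simp
    · right; simp
  have hx' : pn j x = 0 ∨ pn j x = 1 := by
    interval_cases x
    · left; simp
    · right; simp
  have hwB : w < B := by
    rcases hw with hw | hw
    · exact lt_of_sq (le_trans (le_pn g w (by omega)) (by omega)) hB
    · exact lt_of_sq (le_trans (le_qn g w hg) (by omega)) hB
  have h4 := allLT_spec hall w hwB
  simp only [Bool.and_eq_true, nbeq_iff] at h4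
  omega

/-- The table check: every `(j,k)` with `3 ≤ j ≤ 10`, `j ≤ k ≤ K j` is in the list `S` or has
an entry `(j,k,n,B)` in the table `T`. -/
def cover (S : List (ℕ × ℕ)) (T : List (ℕ × ℕ × ℕ × ℕ)) (j K : ℕ) : Bool :=
  allLT (K + 1) fun k => Nat.ble (k + 1) j || S.any (fun s => Nat.beq s.1 j && Nat.beq s.2 k) ||
    T.any (fun t => Nat.beq t.1 j && Nat.beq t.2.1 k)

def tableOK (g : ℕ) (T : List (ℕ × ℕ × ℕ × ℕ)) : Bool :=
  T.all fun t => Nat.ble 3 t.1 && Nat.ble 3 t.2.1 && chk g t.1 t.2.1 t.2.2.1 t.2.2.2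

theorem mem_of_universal {g : ℕ} (hg : 5 ≤ g) {S : List (ℕ × ℕ)} {T : List (ℕ × ℕ × ℕ × ℕ)}
    (hT : tableOK g T = true) {j k K B : ℕ} (hj : 3 ≤ j) (hjk : j ≤ k)
    (hK : chkK g j K B = true) (hc : cover S T j K = true) (hU : Universal g j k) :
    (j, k) ∈ S := by
  by_cases hk : K < k
  · exact absurd hU (not_universal_of_chkK hg hj (by omega) hk hK)
  push Not at hk
  have h1 := allLT_spec hc k (by omega)
  simp only [Bool.or_eq_true, List.any_eq_true, Bool.and_eq_true, Nat.beq_eq] at h1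
  rcases h1 with (h1 | ⟨s, hs, h2, h3⟩) | ⟨t, ht, h2, h3⟩
  · have := Nat.le_of_ble_eq_true h1
    omega
  · have : s = (j, k) := Prod.ext h2 h3
    rwa [this] at hs
  · exfalso
    have h4 := List.all_eq_true.mp hT t ht
    simp only [Bool.and_eq_true] at h4
    rw [h2, h3] at h4
    exact not_universal_of_chk hg hj (by omega) h4.2 hU

end Pool.Agent.H56.UniversalPairs
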